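import Pool.Agent.Lib.MP_f9d380_an.Space

namespace Pool.Agent.Results.MP_f9d380_an.MarkushevichSharp

open Pool.Agent.Lib.MP_f9d380_an
open scoped ENNReal

/-- Q1 fails, and the exponent two is optimal: one normalized Markushevich basis of a Banach space
with `g_m, λ_m ≥ M ^ 2` while `L_{m'} ≤ 6 M` for all `m' ≤ 2 m`, for every `M ≥ 2`. -/
theorem result (𝕜 : Type) [RCLike 𝕜] :
    ∃ (X : Type) (_ : NormedAddCommGroup X) (_ : NormedSpace 𝕜 X) (_ : CompleteSpace X)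
      (x : ℕ → X) (xs : ℕ → X →ₗ[𝕜] 𝕜),
      IsMarkushevich (fun f : X => ‖f‖) x xs ∧ (∀ n, ‖x n‖ = 1) ∧ (∀ n f, ‖xs n f‖ ≤ ‖f‖) ∧
      ∀ M : ℕ, 2 ≤ M → ∃ m : ℕ, 1 ≤ m ∧
        (M : ℝ≥0∞) ^ 2 ≤ gPar (fun f : X => ‖f‖) x xs m ∧
        (M : ℝ≥0∞) ^ 2 ≤ lamPar (fun f : X => ‖f‖) x xs m ∧
        ∀ m' : ℕ, m' ≤ 2 * m → chebPar (fun f : X => ‖f‖) x xs m' ≤ 6 * (M : ℝ≥0∞) := by
  refine ⟨Sp 𝕜 allB, inferInstance, inferInstance, inferInstance, bx 𝕜 allB,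
    bxs 𝕜 allB_blocks, isMarkushevich _, norm_bx allB_blocks, coef_le_norm _, fun M hM => ?_⟩
  obtain ⟨k, rfl⟩ : ∃ k, M = k + 2 := ⟨M - 2, by omega⟩
  have h := lower_bounds (𝕜 := 𝕜) allB_blocks (allB_card k)
  refine ⟨(k + 2) * cut (k + 1), Nat.mul_pos (by omega) (cut_pos _), h.1, h.2, fun m' hm' => ?_⟩
  refine chebPar_le allB_blocks (k := k + 1) (hm'.trans (le_of_eq ?_))
  unfold Nq
  ring

end Pool.Agent.Results.MP_f9d380_an.MarkushevichSharp
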