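import Pool.Agent.Lib.MP_f9d380_an.Schauder

namespace Pool.Agent.Results.MP_f9d380_an.SchauderLinear

open Pool.Agent.Lib.MP_f9d380_an
open scoped NNReal

universe u

/-- Q2 holds with a constant depending only on `p` and on the basis constant `K`. -/
theorem result (p K : ℝ) (hp : 0 < p) (_hp1 : p ≤ 1) :
    ∃ C : ℝ≥0, ∀ (𝕜 : Type) [RCLike 𝕜] (X : Type u) [AddCommGroup X] [Module 𝕜 X]
      (N : X → ℝ) (x : ℕ → X) (xs : ℕ → X →ₗ[𝕜] 𝕜), IsPBanach 𝕜 p N → IsSchauder N x xs K →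
        ∀ m : ℕ, max (gPar N x xs m) (lamPar N x xs m) ≤ C * chebPar N x xs m :=
  schauder_linear p K hp

end Pool.Agent.Results.MP_f9d380_an.SchauderLinear
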