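import Pool.Agent.Lib.MP_f9d380_an.Space

namespace Pool.Agent.Results.MP_f9d380_an.SchauderNoUniform

open Pool.Agent.Lib.MP_f9d380_an
open scoped ENNReal

/-- Q2 fails if the constant may not depend on the basis: normalized Schauder bases with
`g_m, λ_m ≥ M ^ 2` and `L_m ≤ 6 M`. -/
theorem result (p : ℝ) (hp : 0 < p) (hp1 : p ≤ 1) (𝕜 : Type) [RCLike 𝕜] (M : ℕ) (hM : 2 ≤ M) :
    ∃ (X : Type) (_ : AddCommGroup X) (_ : Module 𝕜 X) (N : X → ℝ)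
      (x : ℕ → X) (xs : ℕ → X →ₗ[𝕜] 𝕜),
      IsPBanach 𝕜 p N ∧ (∃ K : ℝ, IsSchauder N x xs K) ∧
      (∀ n, N (x n) = 1) ∧ (∀ n f, ‖xs n f‖ ≤ N f) ∧
      ∃ m : ℕ, 1 ≤ m ∧ (M : ℝ≥0∞) ^ 2 ≤ gPar N x xs m ∧ (M : ℝ≥0∞) ^ 2 ≤ lamPar N x xs m ∧
        chebPar N x xs m ≤ 6 * (M : ℝ≥0∞) := by
  obtain ⟨k, rfl⟩ : ∃ k, M = k + 2 := ⟨M - 2, by omega⟩
  have h := lower_bounds (𝕜 := 𝕜) (oneB_blocks k) (k := k) (by simp [oneB])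
  refine ⟨Sp 𝕜 (oneB k), inferInstance, inferInstance, fun f => ‖f‖, bx 𝕜 (oneB k),
    bxs 𝕜 (oneB_blocks k), isPBanach_norm hp hp1, ⟨_, oneB_schauder k⟩, norm_bx (oneB_blocks k),
    coef_le_norm _, (k + 2) * cut (k + 1), Nat.mul_pos (by omega) (cut_pos _), h.1, h.2, ?_⟩
  refine chebPar_le (oneB_blocks k) (k := k + 1) ?_
  unfold Nq
  nlinarith [cut_pos (k + 1)]

end Pool.Agent.Results.MP_f9d380_an.SchauderNoUniform
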